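import Pool.Agent.BoolDim.Final

/-!
# MP_e52733_co : the maximum Boolean dimension of an antichain plus `n` points

`f n = n / log2 (n+1) + Theta (n / (log2 (n+1))^3)`, uniformly for all `n ≥ 1`.
-/

namespace Pool.Agent.Results.MP_e52733_co.SharpAsymptotic

open Pool.Agent.BoolDim

theorem result :
    (∀ n : ℕ, IsGreatest (bdims n) (f n)) ∧
    ∃ c C : ℝ, 0 < c ∧ 0 < C ∧ ∀ n : ℕ, 1 ≤ n →
      (n : ℝ) / Real.logb 2 (n + 1) + c * n / (Real.logb 2 (n + 1)) ^ 3 ≤ (f n : ℝ) ∧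
      (f n : ℝ) ≤ (n : ℝ) / Real.logb 2 (n + 1) + C * n / (Real.logb 2 (n + 1)) ^ 3 :=
  main_all

end Pool.Agent.Results.MP_e52733_co.SharpAsymptotic
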